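import Pool.Agent.Helper17.SO.Stmts

/-! Project SO, module QRB: the second consequence. -/

set_option autoImplicit false

open Finset

namespace Pool.Agent.Helper17.SO

theorem qrb_order {q : ℕ} [Fact q.Prime] (x : ZMod q) (hx : ∀ f : ℕ, x ^ f ≠ -1) (N : ℕ) :
    ∀ a : ℕ, x ^ (2 ^ a * N) = 1 → x ^ N = 1 := by
  intro a
  induction a with
  | zero => intro h; simpa using h
  | succ a ih =>
    intro h
    have h1 : (x ^ (2 ^ a * N) - 1) * (x ^ (2 ^ a * N) + 1) = 0 := by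
      have h2 : (x ^ (2 ^ a * N) - 1) * (x ^ (2 ^ a * N) + 1) = x ^ (2 ^ (a + 1) * N) - 1 := by
        ring
      rw [h2, h, sub_self]
    rcases mul_eq_zero.1 h1 with h2 | h2
    · exact ih (sub_eq_zero.1 h2)
    · exact absurd (eq_neg_of_add_eq_zero_left h2) (hx _)

theorem st_QRB : ST_QRB := by
  intro q m s k hq hq4 hs hp hk h
  haveI : Fact q.Prime := ⟨hq⟩
  have hk0 : (k : ZMod q) ≠ 0 := by
    rw [Ne, ZMod.natCast_eq_zero_iff]
    exact hk
  push_cast at h
  have hms : (m : ZMod q) ^ 2 * (s : ZMod q) ≠ 0 := by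
    rw [h]
    exact pow_ne_zero _ hk0
  have hs0 : (s : ZMod q) ≠ 0 := right_ne_zero_of_mul hms
  have hm0 : (m : ZMod q) ≠ 0 := by
    intro h0
    rw [h0] at hms
    simp at hms
  -- write q - 1 = 4 * 2 ^ a * N with N odd
  obtain ⟨a, N, hN, hqN⟩ := Nat.exists_eq_two_pow_mul_odd (n := (q - 1) / 4) (by
    have := hq.two_le
    omega)
  have hq1 : q - 1 = 2 ^ (a + 2) * N := by
    have h1 : 4 * ((q - 1) / 4) = q - 1 := by omega
    rw [← h1, hqN]
    ring
  have hpN : ∀ p : ℕ, p.Prime → p ∣ s → (p : ZMod q) ^ N = 1 := by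
    intro p hpp hps
    have hpq : p ≠ q := by
      rintro rfl
      apply hs0
      rw [ZMod.natCast_eq_zero_iff]
      exact hps
    have hp0 : (p : ZMod q) ≠ 0 := by
      rw [Ne, ZMod.natCast_eq_zero_iff]
      intro hd
      exact hpq ((Nat.prime_dvd_prime_iff_eq hq hpp).1 hd).symm
    apply qrb_order _ (hp p hpp hps hpq) N (a + 2)
    rw [← hq1]
    exact ZMod.pow_card_sub_one_eq_one hp0
  have hsN : (s : ZMod q) ^ N = 1 := by
    have h1 : s = ∏ p ∈ s.primeFactors, p := (Nat.prod_primeFactors_of_squarefree hs).symm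
    rw [h1]
    push_cast
    rw [← Finset.prod_pow]
    apply Finset.prod_eq_one
    intro p hps
    exact hpN p (Nat.prime_of_mem_primeFactors hps) (Nat.dvd_of_mem_primeFactors hps)
  have hkm : (((k * m : ℕ) : ℤ) : ZMod q) ≠ 0 := by
    push_cast
    exact mul_ne_zero hk0 hm0
  rw [← jacobiSym.legendreSym.to_jacobiSym, legendreSym.eq_one_iff q hkm, ZMod.euler_criterion q hkm]
  have hq2 : q / 2 = 2 * (2 ^ a * N) := by
    have h1 : 2 ^ (a + 2) * N = 4 * (2 ^ a * N) := by ring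
    omega
  push_cast
  rw [hq2, pow_mul]
  have h1 : ((k : ZMod q) * m) ^ 2 = (m ^ 2) ^ 2 * s := by
    rw [mul_pow, ← h]
    ring
  rw [h1, mul_pow]
  have h2 : (s : ZMod q) ^ (2 ^ a * N) = 1 := by
    rw [mul_comm, pow_mul, hsN, one_pow]
  have h3 : ((((m : ZMod q) ^ 2) ^ 2) ^ (2 ^ a * N)) = m ^ (q - 1) := by
    rw [hq1, ← pow_mul, ← pow_mul]
    congr 1
    ring
  rw [h2, h3, ZMod.pow_card_sub_one_eq_one hm0, mul_one]

end Pool.Agent.Helper17.SO
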