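import Pool.Agent.Helper17.SO.Stmts

/-! Project SO, module RES: the number of residue classes modulo a product of primes. -/

set_option autoImplicit false

open Finset

namespace Pool.Agent.Helper17.SO

theorem res_step (lam q P : ℕ) (hq : q.Prime) (hc : Nat.Coprime q P) (F : Finset ℕ)
    (hlt : ∀ a ∈ F, a < q * P) (hmod : ∀ a ∈ F, ∀ b ∈ F, a % P = b % P)
    (hF : ∀ a ∈ F, FD lam q a) : F.card ≤ 2 := by
  by_contra hcon
  push Not at hcon
  obtain ⟨a, ha, b, hb, c, hc', hab, hac, hbc⟩ := Finset.two_lt_card.1 hcon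
  have hqz : Prime (q : ℤ) := Nat.prime_iff_prime_int.1 hq
  have key : ∀ a ∈ F, ∀ b ∈ F, a ≠ b → ¬ (q : ℤ) ∣ (a : ℤ) - b := by
    intro a ha b hb hab hd
    have h1 : (P : ℤ) ∣ (a : ℤ) - b := by
      have h2 : (a : ℤ) % P = (b : ℤ) % P := by exact_mod_cast hmod a ha b hb
      exact Int.ModEq.dvd (show (b : ℤ) ≡ a [ZMOD P] from h2.symm)
    have h3 : ((q * P : ℕ) : ℤ) ∣ (a : ℤ) - b := by
      push_cast
      exact IsCoprime.mul_dvd (Nat.isCoprime_iff_coprime.2 hc) hd h1
    have h4 : (a : ℤ) - b = 0 := by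
      apply Int.eq_zero_of_abs_lt_dvd h3
      have := hlt a ha
      have := hlt b hb
      rw [abs_lt]
      constructor <;> push_cast <;> omega
    exact hab (by omega)
  have pair : ∀ a ∈ F, ∀ b ∈ F, a ≠ b → (q : ℤ) ∣ (a : ℤ) + b - 1 := by
    intro a ha b hb hab
    have h1 := hF a ha
    have h2 := hF b hb
    unfold FD at h1 h2
    have h3 : (q : ℤ) ∣ ((a : ℤ) - b) * ((a : ℤ) + b - 1) := by
      have h4 : ((a : ℤ) - b) * ((a : ℤ) + b - 1) =
          ((a : ℤ) ^ 2 - a + lam) - ((b : ℤ) ^ 2 - b + lam) := by ring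
      rw [h4]
      exact dvd_sub h1 h2
    exact (hqz.dvd_or_dvd h3).resolve_left (key a ha b hb hab)
  have h1 := pair a ha b hb hab
  have h2 := pair a ha c hc' hac
  apply key b hb c hc' hbc
  have h3 : (b : ℤ) - c = ((a : ℤ) + b - 1) - ((a : ℤ) + c - 1) := by ring
  rw [h3]
  exact dvd_sub h1 h2

theorem st_RES : ST_RES := by
  intro lam T
  induction T using Finset.induction_on with
  | empty =>
    intro _ R hR _
    simp only [Finset.prod_empty, Finset.card_empty, pow_zero] at hR ⊢
    have : R ⊆ {0} := by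
      intro a ha
      have := hR a ha
      simp
      omega
    exact (Finset.card_le_card this).trans (by simp)
  | insert q T hqT ih =>
    intro hp R hlt hFD
    have hq : q.Prime := hp q (Finset.mem_insert_self _ _)
    have hT : ∀ q ∈ T, q.Prime := fun q' h => hp q' (Finset.mem_insert_of_mem h)
    rw [Finset.prod_insert hqT] at hlt
    set P := ∏ q ∈ T, q with hP
    have hPpos : 0 < P := Finset.prod_pos (fun q' h => (hT q' h).pos)
    have hcop : Nat.Coprime q P := by
      apply Nat.Coprime.prod_right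
      intro q' h'
      exact (Nat.coprime_primes hq (hT q' h')).2 (fun h => hqT (h ▸ h'))
    have h1 : (R.image (· % P)).card ≤ 2 ^ T.card := by
      apply ih hT
      · intro a ha
        obtain ⟨b, _, rfl⟩ := Finset.mem_image.1 ha
        exact Nat.mod_lt _ hPpos
      · intro a ha q' hq'
        obtain ⟨b, hb, rfl⟩ := Finset.mem_image.1 ha
        have h2 := hFD b hb q' (Finset.mem_insert_of_mem hq')
        unfold FD at h2 ⊢
        have h3 : q' ∣ P := Finset.dvd_prod_of_mem _ hq'
        have h4 : (q' : ℤ) ∣ (b : ℤ) - ((b % P : ℕ) : ℤ) := by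
          have h5 : (P : ℤ) ∣ (b : ℤ) - ((b % P : ℕ) : ℤ) := by
            push_cast
            exact Int.dvd_self_sub_emod
          exact (Int.natCast_dvd_natCast.2 h3).trans h5
        have h6 : ((b % P : ℕ) : ℤ) ^ 2 - ((b % P : ℕ) : ℤ) + lam =
            ((b : ℤ) ^ 2 - b + lam) - ((b : ℤ) - ((b % P : ℕ) : ℤ)) *
              ((b : ℤ) + ((b % P : ℕ) : ℤ) - 1) := by ring
        rw [h6]
        exact dvd_sub h2 (Dvd.dvd.mul_right h4 _)
    have h2 : R.card ≤ 2 * (R.image (· % P)).card := by
      apply Finset.card_le_mul_card_image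
      intro b _
      apply res_step lam q P hq hcop
      · intro a ha
        exact hlt a (Finset.mem_filter.1 ha).1
      · intro a ha a' ha'
        rw [(Finset.mem_filter.1 ha).2, (Finset.mem_filter.1 ha').2]
      · intro a ha
        exact hFD a (Finset.mem_filter.1 ha).1 q (Finset.mem_insert_self _ _)
    rw [Finset.card_insert_of_notMem hqT, pow_succ]
    omega

end Pool.Agent.Helper17.SO
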